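import Mathlib
import Pool.Agent.H90.TI.Basic

/-!
CNV: tensor induction from polynomial functoriality.
-/

namespace Pool.TI

open Pool.H73.Func Pool.H23.Schur Filter Pool.Agent.H1.AM Equiv

theorem CNV_unrS_sum {A : GLSide} {ι : Type*} (t : Finset ι) (Q : ι → Multiset A.Cusp)
    (v : A.Place) (h : ∀ j ∈ t, unrS A (Q j) v) : unrS A (∑ j ∈ t, Q j) v := by
  intro σ hσ
  obtain ⟨j, hj, hσ'⟩ := Multiset.mem_sum.1 hσ
  exact h j hj σ hσ'

theorem CNV_psum_sum {A : GLSide} {ι : Type*} (t : Finset ι) (Q : ι → Multiset A.Cusp)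
    (v : A.Place) (n : ℕ) :
    psum n (parS A (∑ j ∈ t, Q j) v) = ∑ j ∈ t, psum n (parS A (Q j) v) := by
  classical
  induction t using Finset.induction_on with
  | empty => simp [parS_zero, psum]
  | insert a t ha ih => rw [Finset.sum_insert ha, Finset.sum_insert ha, parS_add, psum_add, ih]

theorem sCNV (h1 : SIJ1) (h2 : SIJ2) (h3 : SSCL) : SCNV := by
  intro A B hP k m _ μ _ hμ _ P
  classical
  have : Fintype (Mon m k) := Fintype.ofEquiv _ SemidirectProduct.equivProd.symm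
  have hj : ∀ j : ℕ, ∃ Q : Multiset A.Cusp, ∀ v, unrS A P v → Unr B μ v → unrS A Q v ∧
      ∀ n, 1 ≤ n → psum n (parS A Q v) = dTr j (μ (B.Fr v) ^ n) n (parS A P v) := by
    intro j
    obtain ⟨ρ, hρ⟩ := h1 m k j
    have hc : IsChar (fun x : Perm (Fin j) × Mon m k => (injRep m k j x).trace) := by
      refine ⟨Fintype.card (Fin j ↪ Fin k), ((Matrix.reindexAlgEquiv ℂ ℂ
        (Fintype.equivFin (Fin j ↪ Fin k))).toRingEquiv.toRingHom.toMonoidHom).comp ρ, ?_⟩
      intro x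
      show _ = (injRep m k j x).trace
      rw [← hρ x]
      simp [Matrix.trace, Matrix.diag, Equiv.sum_comp (Fintype.equivFin (Fin j ↪ Fin k)).symm
        (fun i => ρ x i i)]
    obtain ⟨Q, hQ⟩ := hP j (Mon m k) μ hμ _ hc P
    refine ⟨Q, fun v hv hu => ⟨(hQ v hv hu).1, fun n hn => ?_⟩⟩
    rw [(hQ v hv hu).2 n hn, ← h2 m k j]
  choose Q hQ using hj
  refine ⟨∑ j ∈ Finset.range (k + 1), Q j, fun v hv hu =>
    ⟨CNV_unrS_sum _ _ _ fun j _ => (hQ j v hv hu).1, fun n hn => ?_⟩⟩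
  rw [CNV_psum_sum, Finset.sum_congr rfl fun j _ => (hQ j v hv hu).2 n hn]
  have h4 := h3 m k (μ (B.Fr v) ^ n) n (parS A P v) 1
  simp only [one_mul, one_pow, Multiset.map_id'] at h4
  exact h4.symm

end Pool.TI
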